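import Pool.Agent.Helper46.NU.Names

/-!
# MP_1fe1ca_lc: extensionality of injV
-/

noncomputable section

namespace NU.PkEXJ

open Pool.Agent.Helper97.Ku

theorem exj : G_EXJ := by
  intro L _ P Q hP hQ
  unfold injV
  refine BSet.Ext.iSup fun f => ?_
  refine BSet.Ext.inf ?_ ?_
  · refine BSet.Ext.iInf fun a => ?_
    refine BSet.Ext.himp (hP a) ?_
    refine BSet.Ext.iSup fun b => ?_
    exact BSet.Ext.inf (hQ b) (BSet.Ext.const _)
  · refine BSet.Ext.iInf fun a => BSet.Ext.iInf fun a' => BSet.Ext.iInf fun b => ?_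
    refine BSet.Ext.himp ?_ (BSet.Ext.const _)
    exact BSet.Ext.inf (hP a) (BSet.Ext.inf (hP a') (BSet.Ext.const _))

end NU.PkEXJ
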