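import Pool.Agent.Helper46.NU.Goals1

/-!
# MP_1fe1ca_lc: approximation of measurable sets by clopen functions
-/

open MeasureTheory Filter Topology Set
open scoped ENNReal symmDiff

noncomputable section

namespace NU.PkAPX

open Classical in
theorem apx (sup : G_SUP) (mz : G_MZ) : G_APX := by
  intro S q K hK hdep
  obtain ⟨Γ', hΓ', hsup⟩ := sup S (fun _ => K) (fun _ => hK)
  set Γ : Set S.C := {c | c ∈ Γ' ∧ S.see q c} with hΓ
  have hΓc : Γ.Countable := hΓ'.mono (fun c hc => hc.1)
  have hsupΓ : ∀ z z' : Pt S, (∀ c ∈ Γ, z c = z' c) → (z ∈ K ↔ z' ∈ K) := by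
    intro z z' h
    let z'' : Pt S := fun c => if S.see q c then z c else z' c
    have h1 : z ∈ K ↔ z'' ∈ K := by
      apply hdep
      intro c hc
      simp only [z'', if_pos hc]
    have h2 : z'' ∈ K ↔ z' ∈ K := by
      apply (hsup z'' z' _ 0)
      intro c hc
      by_cases hs : S.see q c
      · simp only [z'', if_pos hs]
        exact h c ⟨hc, hs⟩
      · simp only [z'', if_neg hs]
    exact h1.trans h2
  have : Countable Γ := hΓc.to_subtype
  -- the countable product
  let I : Type := Γ × ℕ
  let r : Pt S → (I → Bool) := fun z i => z i.1.1 i.2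
  let ext : (I → Bool) → Pt S := fun v c n => if h : c ∈ Γ then v (⟨c, h⟩, n) else false
  have hr : Measurable r := by
    refine measurable_pi_lambda _ (fun i => ?_)
    exact (measurable_pi_apply i.2).comp (measurable_pi_apply i.1.1)
  have hext : Measurable ext := by
    refine measurable_pi_lambda _ (fun c => measurable_pi_lambda _ (fun n => ?_))
    by_cases h : c ∈ Γ
    · have : (fun v : I → Bool => ext v c n) = fun v => v (⟨c, h⟩, n) := by
        funext v; simp only [ext, dif_pos h]
      rw [this]
      exact measurable_pi_apply _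
    · have : (fun v : I → Bool => ext v c n) = fun v => false := by
        funext v; simp only [ext, dif_neg h]
      rw [this]
      exact measurable_const
  let K₀ : Set (I → Bool) := ext ⁻¹' K
  have hK₀ : MeasurableSet K₀ := hext hK
  have hKr : ∀ z : Pt S, z ∈ K ↔ r z ∈ K₀ := by
    intro z
    apply hsupΓ
    intro c hc
    funext n
    simp only [r, ext, dif_pos hc]
  -- enumeration of the cylinders
  let Idx : Type := Σ F : Finset I, Set (F → Bool)
  have : ∀ F : Finset I, Finite (Set (F → Bool)) := fun F => inferInstance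
  have : Countable Idx := inferInstance
  have : Nonempty Idx := ⟨⟨∅, ∅⟩⟩
  obtain ⟨e, he⟩ := exists_surjective_nat Idx
  let b : ℕ → CF S := fun j => ⟨fun z => decide ((fun i : (e j).1 => r z i.1) ∈ (e j).2), by
    refine ⟨(e j).1.image (fun i => (i.1.1, i.2)), fun z z' h => ?_⟩
    have : (fun i : (e j).1 => r z i.1) = fun i : (e j).1 => r z' i.1 := by
      funext i
      exact h (i.1.1.1, i.1.2) (Finset.mem_image.2 ⟨i.1, i.2, rfl⟩)
    show decide ((fun i : (e j).1 => r z i.1) ∈ (e j).2) = decide ((fun i : (e j).1 => r z' i.1) ∈ (e j).2)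
    rw [this]⟩
  refine ⟨b, fun φ η hη => ?_⟩
  let ν : Measure (I → Bool) := ((PP S).map (zz S φ)).map r
  have : IsProbabilityMeasure ((PP S).map (zz S φ)) :=
    Measure.isProbabilityMeasure_map (mz S φ).aemeasurable
  have : IsProbabilityMeasure ν := Measure.isProbabilityMeasure_map hr.aemeasurable
  have hring : IsSetRing (measurableCylinders (fun _ : I => Bool)) :=
    { empty_mem := empty_mem_measurableCylinders _
      union_mem := fun s t hs ht => union_mem_measurableCylinders hs ht
      sdiff_mem := fun s t hs ht => sdiff_mem_measurableCylinders hs ht }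
  obtain ⟨t, ht, hlt⟩ := exists_measure_symmDiff_lt_of_generateFrom_isSetRing (μ := ν) hring
    ⟨{Set.univ}, Set.countable_singleton _,
      Set.singleton_subset_iff.2 (univ_mem_measurableCylinders _), by simp⟩
    generateFrom_measurableCylinders.symm hK₀ (pos_iff_ne_zero.2 hη)
  rw [mem_measurableCylinders] at ht
  obtain ⟨F, T, hT, rfl⟩ := ht
  obtain ⟨j, hj⟩ := he ⟨F, T⟩
  refine ⟨j, ?_⟩
  have hmem : ∀ z : Pt S, ((b j).1 (mask S q z) = true) ↔ r z ∈ cylinder F T := by
    intro z
    have h1 : r (mask S q z) = r z := by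
      funext i
      have hi : S.see q i.1.1 := i.1.2.2
      simp only [r, mask, if_pos hi]
    simp only [b, decide_eq_true_eq, h1, mem_cylinder]
    rw [hj]
    rfl
  have hset : {z : Pt S | ¬ ((b j).1 (mask S q z) = true ↔ z ∈ K)} = r ⁻¹' (cylinder F T ∆ K₀) := by
    ext z
    simp only [Set.mem_ofPred_eq, hmem z, hKr z, Set.mem_preimage, Set.mem_symmDiff]
    tauto
  have hms : MeasurableSet (cylinder F T ∆ K₀) :=
    (MeasurableSet.of_mem_measurableCylinders (cylinder_mem_measurableCylinders F T hT)).symmDiff hK₀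
  have heq : pr S φ {z | ¬ ((b j).1 (mask S q z) = true ↔ z ∈ K)} = ν (cylinder F T ∆ K₀) := by
    rw [hset]
    simp only [ν]
    rw [Measure.map_apply hr hms, Measure.map_apply (mz S φ) (hr hms)]
    rfl
  rw [heq]
  exact hlt

end NU.PkAPX
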